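import Pool.Agent.H639.Sil9

/-!
# Singular cardinals of uncountable cofinality, in ZFC

No large cardinals are assumed, and no cardinal is assumed to be a strong limit.

1. Let `L` be a singular cardinal of uncountable cofinality `ρ`. If `(L⁺)^HOD < L⁺`, then club many
   `μ < L` are cardinals with `(μ⁺)^HOD < μ⁺` and `cf((μ⁺)^HOD) < ρ`.
2. Let `L` be as in 1. If some `κ` with `L ≤ κ < L⁺` is regular in HOD, then for club many cardinals
   `μ < L` some `α` with `μ ≤ α < μ⁺` is regular in HOD and has cofinality less than `ρ`; and for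
   arbitrarily large singular `μ < L` of cofinality `ω` some such `α` has cofinality `ω`.
3. For each ordinal `θ`: every singular `γ > θ` is singular in HOD with `(γ⁺)^HOD = γ⁺`, if and only if
   for every singular `γ > θ` of cofinality `ω` no `κ` with `γ ≤ κ < γ⁺` which is regular in HOD has
   cofinality `ω`.
4. If the latter holds for some `θ`, then the HOD Hypothesis holds.

The proof of 1 replaces the canonical functions of length `κ < L⁺` on `L` by the rank functions of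
relations in HOD; a definable coding of these functions is refuted with club guessing.
-/

set_option autoImplicit false

namespace Pool.Agent.Results.MP_dbe07f_lc.SilverTheorem

open Pool.Agent.H310.HD Pool.Agent.H639 Gss969 ZFSet
open Pool.Agent.Results.MP_e37c09_lc.AlternativeA (AltA HODHypothesis)
open Pool.Agent.Results.MP_dbe07f_lc.CofinalitySpectrum (RegAt InfCard)

universe u

/-- For every singular cardinal `γ > θ` of cofinality `ω` no `κ` with `γ ≤ κ < γ⁺` which is regular in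
HOD has cofinality `ω`. -/
def Countable (θ : Ordinal.{u}) : Prop :=
  ∀ γ > θ, IsSing (Ordinal.toZFSet γ) → CofOm γ.toZFSet → ∀ κ, RegAt γ κ → ¬ CofOm κ.toZFSet

theorem isSing_of {L ρ : Ordinal.{u}} (hc : IsCard L.toZFSet) (hω : Ordinal.omega0 < L)
    (hρ : IsCof ρ L) (hρL : ρ < L) : IsSing L.toZFSet := by
  obtain ⟨f, hf, hf'⟩ := hρ.1
  exact ⟨hc, by unfold om; exact tzm.2 hω, ρ.toZFSet, tzm.2 hρL, f, hf, hf'⟩

theorem sing_cof {L : Ordinal.{u}} (h : IsSing L.toZFSet) :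
    InfCard L ∧ ∃ ρ < L, IsCof ρ L := by
  obtain ⟨h1, h2, a, ha, g, hg, hgc⟩ := h
  unfold om at h2
  obtain ⟨a, ha', rfl⟩ := Ordinal.mem_toZFSet_iff.1 ha
  obtain ⟨ρ, hρ, h3, h4⟩ := exists_cof (κ := L) (ν := a) ⟨g, hg, hgc⟩
  exact ⟨⟨h1, (tzm.1 h2).le⟩, ρ, hρ.trans_lt ha', h3, h4⟩

/-- Cofinality `ω`: one of the regular cardinals of HOD in `[μ, μ⁺)` has cofinality `ω`. -/
theorem omega_case {μ α : Ordinal.{u}} (hμ : InfCard μ) (hω : Ordinal.omega0 < μ)
    (hc : IsCof Ordinal.omega0 μ) (hα : RegAt μ α) : ∃ κ, RegAt μ κ ∧ CofOm κ.toZFSet := by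
  by_contra hcon
  push Not at hcon
  refine ((CofinalitySpectrum.result.{u} true).2.2.1 μ _ hμ hc hω).2 (fun κ hκ => ?_) α hα
  exact ⟨fun h => hcon κ hκ (cofOm_iff.2 h), fun h => hcon κ hκ (cofOm_iff.2 h)⟩

theorem part3 {L ρ κ θ : Ordinal.{u}} (h : UncSing L ρ) (hκ : RegAt L κ) (hθ : θ < L) :
    ∃ μ, θ < μ ∧ μ < L ∧ IsSing (Ordinal.toZFSet μ) ∧ CofOm μ.toZFSet ∧
      ∃ α, RegAt μ α ∧ CofOm α.toZFSet := by
  obtain ⟨C, hC, h1⟩ := h.club_regAt hκ
  obtain ⟨e, he⟩ := exists_nrm h.lim h.2.1.1 h.2.1.2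
  obtain ⟨b, hb, h2⟩ := he.cof _ (max_lt hθ (h.2.2.1.trans h.2.2.2))
  obtain ⟨ξ, hξ, h3, h4, h5, h6⟩ := exists_pt h.regUnc (he.club_pre h.regUnc hC) IsReg.omega
    h.2.2.1 hb
  rw [mem_sep, Ordinal.rank_toZFSet] at h4
  have h7 := h2.trans (he.mono _ _ h3)
  have h8 : Ordinal.omega0 < e ξ := (le_max_right _ _).trans_lt h7
  have h9 : IsCof Ordinal.omega0 (e ξ) := (he.isCof h5).2 h6
  obtain ⟨h10, α, _, h11, _⟩ := h1 _ h4.2
  exact ⟨e ξ, (le_max_left _ _).trans_lt h7, he.lt ξ hξ, isSing_of h10 h8 h9 h8, cofOm_iff.2 h9,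
    omega_case ⟨h10, h8.le⟩ h8 h9 h11⟩

theorem regAt_lt {γ κ l : Ordinal.{u}} (hκ : RegAt γ κ) (hl : IsSuccCard γ.toZFSet l.toZFSet) :
    κ < l := by
  by_contra hcon
  push Not at hcon
  have h1 := IsCard.card_lt hl.1 (tzm.1 hl.2.1)
  exact absurd ((Ordinal.card_le_card hcon).trans hκ.2.2.le) (not_le.2 h1)

theorem regAt_of {γ κ l : Ordinal.{u}} (hl : IsSuccCard γ.toZFSet l.toZFSet) (hκ : HODReg κ)
    (h1 : γ ≤ κ) (h2 : κ < l) : RegAt γ κ := by
  refine ⟨hκ, h1, le_antisymm ?_ (Ordinal.card_le_card h1)⟩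
  obtain ⟨f, hf, hfo⟩ := hl.2.2 κ.toZFSet (tzm.2 h2) ⟨_, tzm.2 hκ.1, rfl⟩
  obtain ⟨G, hG1, hG2⟩ := exists_og hf
  have h11 : ∀ y : Set.Iio κ, ∃ x : Set.Iio γ, G x.1 = y.1 := by
    intro y
    obtain ⟨x, hx, h12⟩ := hfo _ (tzm.2 y.2)
    obtain ⟨x, hx', rfl⟩ := Ordinal.mem_toZFSet_iff.1 hx
    exact ⟨⟨x, hx'⟩, Ordinal.toZFSet_injective ((hG2 x hx' _).1 h12)⟩
  choose F hF using h11
  have hinj : Function.Injective F := fun y y' h12 => by
    apply Subtype.ext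
    rw [← hF y, ← hF y', h12]
  have h12 := Cardinal.mk_le_of_injective hinj
  rwa [Cardinal.mk_Iio_ordinal, Cardinal.mk_Iio_ordinal, Cardinal.lift_le] at h12

theorem part4 (θ : Ordinal.{u}) : AltA θ ↔ Countable θ := by
  constructor
  · intro h γ hγ hs _ κ hκ _
    obtain ⟨l, _, _, hsucc⟩ := exists_succ hs.1 (by
      have := hs.2.1
      unfold om at this
      exact tzm.1 this)
    exact h γ hγ hs l hsucc κ hκ.2.1 (regAt_lt hκ hsucc) hκ.1
  · intro h γ hγ hs l hl α hγα hαl hα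
    have hr := regAt_of hl hα hγα hαl
    obtain ⟨h1, ρ, hρ, h2⟩ := sing_cof hs
    have hωγ : Ordinal.omega0 < γ := by
      have := hs.2.1
      unfold om at this
      exact tzm.1 this
    have h3 : ∀ y < γ, Order.succ y < γ := by
      intro y hy
      by_contra hcon
      push Not at hcon
      have h9 : γ = Order.succ y := le_antisymm hcon (Order.succ_le_of_lt hy)
      have h10 : y.card < γ.card := IsCard.card_lt h1.1 hy
      have h11 : Cardinal.aleph0 ≤ γ.card := by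
        rw [← Ordinal.card_omega0]
        exact Ordinal.card_le_card h1.2
      rw [h9, Order.succ_eq_add_one, Ordinal.card_add_one] at h10 h11
      rcases lt_or_ge y.card Cardinal.aleph0 with h12 | h12
      · exact absurd (Cardinal.add_lt_aleph0 h12 Cardinal.one_lt_aleph0) (not_lt.2 h11)
      · rw [Cardinal.add_one_eq h12] at h10
        exact absurd h10 (lt_irrefl _)
    have h4 := (h2.isReg (bot_le.trans_lt hωγ) h3).omega_le
    rcases h4.lt_or_eq with h5 | h5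
    · obtain ⟨μ, hμ, _, h6, h7, κ, h8, h9⟩ := part3 ⟨h1, h2, h5, hρ⟩ hr hγ
      exact h μ hμ h6 h7 κ h8 h9
    · rw [← h5] at h2
      obtain ⟨κ, h8, h9⟩ := omega_case h1 hωγ h2 hr
      exact h γ hγ hs (cofOm_iff.2 h2) κ h8 h9

theorem result (b : Bool) :
    (∀ L ρ : Ordinal.{u}, UncSing L ρ →
      (∀ κ, NextReg L κ → κ.card = L.card → ∃ C, Club C L.toZFSet ∧
        ∀ μ : Ordinal.{u}, μ.toZFSet ∈ C → IsCard μ.toZFSet ∧ ρ < μ ∧ ∃ α ν : Ordinal.{u},
          NextReg μ α ∧ α.card = μ.card ∧ IsCof ν α ∧ ν < ρ) ∧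
      ∀ κ, RegAt L κ →
        (∃ C, Club C L.toZFSet ∧ ∀ μ : Ordinal.{u}, μ.toZFSet ∈ C →
          IsCard μ.toZFSet ∧ ∃ α ν : Ordinal.{u}, RegAt μ α ∧ IsCof ν α ∧ ν < ρ) ∧
        ∀ θ < L, ∃ μ, θ < μ ∧ μ < L ∧ IsSing (Ordinal.toZFSet μ) ∧ CofOm μ.toZFSet ∧
          ∃ α, RegAt μ α ∧ CofOm α.toZFSet) ∧
    (∀ θ : Ordinal.{u}, AltA θ ↔ Countable θ) ∧
    ((∃ θ : Ordinal.{u}, Countable θ) → HODHypothesis.{u} b) := by
  refine ⟨fun L ρ h => ⟨fun κ hκ hc => h.club_next hκ hc, fun κ hκ =>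
    ⟨h.club_regAt hκ, fun θ hθ => part3 h hκ hθ⟩⟩, part4, ?_⟩
  rintro ⟨θ, hθ⟩ β
  have hA := (part4 θ).2 hθ
  obtain ⟨γ, hγ, hs, _⟩ := exists_isSing (max θ β)
  obtain ⟨l, hl, hr, hsucc⟩ := exists_succ hs.1 (by
    have := hs.2.1
    unfold om at this
    exact tzm.1 this)
  refine ⟨l, ((le_max_right _ _).trans_lt hγ).trans hl, notStrMeas_of_sing b hr
    ((statL_om hr hl).mono fun α hα h1 => ⟨h1.2, ?_⟩)⟩
  by_contra hcon
  exact hA γ ((le_max_left _ _).trans_lt hγ) hs l hsucc α h1.1.le hα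
    ⟨h1.2.lim.1, h1.2.lim.2, hcon⟩

end Pool.Agent.Results.MP_dbe07f_lc.SilverTheorem
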