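import Pool.Agent.H639.Ref5
import Pool.Agent.H639.Sil3

/-!
# The cofinalities of the regular cardinals of HOD, in ZFC

For an infinite cardinal `l` we consider the ordinals `κ` with `l ≤ κ < l⁺` which are regular in HOD
(weak covering at `l` says that there are none if `l` is singular, and that they have cofinality `l` if
`l` is regular). No large cardinals are assumed.

1. If `cf(κ) ≠ ω, cf(l)`, then club many `x < κ` have cofinality at least `l` in HOD; so for each regular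
   `γ < cf(κ)` some `τ` with `l ≤ τ < κ` is regular in HOD and has cofinality `γ`.
2. Let `l` be regular and uncountable. All `κ` as above have cofinality `l` iff none has cofinality `ω`.
3. Let `l` be singular. There is no such `κ` iff there is none of cofinality `ω` or `cf(l)`.
4. Let `κ = (l⁺)^HOD < l⁺`. Then `cf(κ) = ω`, or `cf(κ) = cf(l)`, or `l` is regular in HOD, `cf(l) = ω`
   and `cf(κ) = ω₁`.
5. Let `θ` be regular and uncountable. All `κ ≥ θ` which are regular in HOD have cofinality `|κ|` iff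
   none of them has cofinality `ω`. Then the HOD Hypothesis holds, and every singular cardinal `γ > θ`
   is singular in HOD with `(γ⁺)^HOD = γ⁺`.

The proof is Ketonen's argument with the ideal of nonstationary subsets of `κ`.
-/

set_option autoImplicit false

namespace Pool.Agent.Results.MP_dbe07f_lc.CofinalitySpectrum

open Pool.Agent.H310.HD Pool.Agent.H639 Gss969 ZFSet
open Pool.Agent.Results.MP_e37c09_lc.AlternativeA

universe u

/-- `κ` is regular in HOD and `l ≤ κ < l⁺`. -/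
def RegAt (l κ : Ordinal.{u}) : Prop := HODReg κ ∧ l ≤ κ ∧ κ.card = l.card

/-- `l` is an infinite cardinal. -/
def InfCard (l : Ordinal.{u}) : Prop := IsCard l.toZFSet ∧ Ordinal.omega0 ≤ l

theorem cof_le {κ l : Ordinal.{u}} (h : κ.card = l.card) (hκ : ∀ y < κ, Order.succ y < κ)
    {ν : Ordinal.{u}} (hν : IsCof ν κ) : ν ≤ l := by
  by_contra hcon
  push Not at hcon
  have h1 : Cardinal.mk (Set.Iio l) = Cardinal.mk (Set.Iio κ) := by
    rw [Cardinal.mk_Iio_ordinal, Cardinal.mk_Iio_ordinal, h]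
  obtain ⟨f⟩ := Cardinal.eq.1 h1
  have key : ∀ (p : Set.Iio κ) (h : (f.symm p).1 < l), f ⟨(f.symm p).1, h⟩ = p := by
    intro p h
    exact (congrArg f (Subtype.ext rfl)).trans (f.apply_symm_apply p)
  refine hν.2 l hcon (cofN_of (G := fun i => if hi : i < l then (f ⟨i, hi⟩).1 else 0)
    (fun i hi => ?_) fun y hy => ?_)
  · simp only [dif_pos hi]
    exact (f ⟨i, hi⟩).2
  · refine ⟨(f.symm ⟨_, hκ y hy⟩).1, (f.symm ⟨_, hκ y hy⟩).2, ?_⟩
    have h2 : (f.symm ⟨_, hκ y hy⟩).1 < l := (f.symm ⟨_, hκ y hy⟩).2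
    simp only [dif_pos h2]
    rw [key]
    exact Order.lt_succ y

theorem part1 {l κ ν : Ordinal.{u}} (_hl : InfCard l) (hκ : RegAt l κ) (hν : IsCof ν κ)
    (h0 : ν ≠ Ordinal.omega0) (h1 : ¬ IsCof ν l) :
    Ordinal.omega0 < ν ∧ ν < l := by
  have h2 := hν.isReg hκ.1.1 hκ.1.2.1
  have h3 := cof_le hκ.2.2 hκ.1.2.1 hν
  refine ⟨lt_of_le_of_ne h2.omega_le fun h => h0 h.symm, lt_of_le_of_ne h3 fun h => h1 ?_⟩
  rw [← h]
  exact ⟨cofN_of (G := fun i => i) (fun i hi => hi) fun y hy => ⟨_, h2.2.1 y hy, Order.lt_succ y⟩,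
    h2.2.2⟩

theorem result (b : Bool) :
    (∀ l κ ν : Ordinal.{u}, InfCard l → RegAt l κ → IsCof ν κ → ν ≠ Ordinal.omega0 → ¬ IsCof ν l →
      (∃ C, Club C κ.toZFSet ∧ ∀ x : Ordinal.{u}, x.toZFSet ∈ C → ∀ c < l, ∀ g, HOD g →
        ¬ Cofi (Ordinal.toZFSet c) x.toZFSet g) ∧
      ∀ γ < ν, IsReg γ → ∃ τ, RegAt l τ ∧ τ < κ ∧ IsCof γ τ) ∧
    (∀ l : Ordinal.{u}, RegUnc l.toZFSet →
      ((∀ κ, RegAt l κ → IsCof l κ) ↔ ∀ κ, RegAt l κ → ¬ IsCof Ordinal.omega0 κ)) ∧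
    (∀ l ρ : Ordinal.{u}, InfCard l → IsCof ρ l → ρ < l →
      ((∀ κ, ¬ RegAt l κ) ↔
        ∀ κ, RegAt l κ → ¬ IsCof Ordinal.omega0 κ ∧ ¬ IsCof ρ κ)) ∧
    (∀ l κ ν : Ordinal.{u}, InfCard l → RegAt l κ → l < κ → (∀ τ, l < τ → τ < κ → ¬ HODReg τ) →
      IsCof ν κ → ν = Ordinal.omega0 ∨ IsCof ν l ∨
        (HODReg l ∧ IsCof Ordinal.omega0 l ∧ ∀ γ < ν, IsReg γ → γ = Ordinal.omega0)) ∧
    ∀ θ : Ordinal.{u}, RegUnc θ.toZFSet →
      ((∀ κ ≥ θ, HODReg κ → ∀ ν, IsCof ν κ → ν.card = κ.card) ↔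
        ∀ κ ≥ θ, HODReg κ → ¬ IsCof Ordinal.omega0 κ) ∧
      ((∀ κ ≥ θ, HODReg κ → ¬ IsCof Ordinal.omega0 κ) → AltA θ ∧ HODHypothesis.{u} b) := by
  have P1 : ∀ l κ ν : Ordinal.{u}, InfCard l → RegAt l κ → IsCof ν κ → ν ≠ Ordinal.omega0 →
      ¬ IsCof ν l → ∀ γ < ν, IsReg γ → ∃ τ, RegAt l τ ∧ τ < κ ∧ IsCof γ τ := by
    intro l κ ν hl hκ hν h0 h1 γ hγ hγr
    obtain ⟨h2, h3⟩ := part1 hl hκ hν h0 h1
    obtain ⟨τ, h4, h5, h6, h7⟩ := spectrum hκ.1 hl.1 hl.2 hκ.2.2.ge hν h2 h3 h1 hγr hγ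
    refine ⟨τ, ⟨h6, h4, le_antisymm ?_ (Ordinal.card_le_card h4)⟩, h5, h7⟩
    exact (Ordinal.card_le_card h5.le).trans hκ.2.2.le
  have hself : ∀ l : Ordinal.{u}, IsReg l → IsCof l l := fun l h =>
    ⟨cofN_of (G := fun i => i) (fun i hi => hi) fun y hy => ⟨_, h.2.1 y hy, Order.lt_succ y⟩, h.2.2⟩
  refine ⟨?_, ?_, ?_, ?_, ?_⟩
  · intro l κ ν hl hκ hν h0 h1
    refine ⟨?_, P1 l κ ν hl hκ hν h0 h1⟩
    obtain ⟨h2, h3⟩ := part1 hl hκ hν h0 h1
    have h4 := nonstat_small hκ.1 hl.1 hl.2 hκ.2.2.ge hν h2 h3 h1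
    unfold StatL at h4
    push Not at h4
    obtain ⟨C, _, hC2, h5⟩ := h4
    refine ⟨C, hC2, fun x hx c hc g hg hcf => ?_⟩
    exact h5 x (tzm.1 (hC2.1 hx)) ⟨c, hc, g, hg, hcf⟩ hx
  · intro l hl
    have hlr := IsReg.of_regUnc hl
    constructor
    · intro h κ hκ h1
      exact absurd ((h κ hκ).unique h1) (ne_of_gt hl.om_lt)
    · intro h κ hκ
      obtain ⟨ν, _, hν⟩ := exists_isCof hκ.1.2.1
      by_cases h1 : IsCof ν l
      · rw [(hself l hlr).unique h1]; exact hν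
      · have h0 : ν ≠ Ordinal.omega0 := fun h2 => h κ hκ (h2 ▸ hν)
        obtain ⟨h2, _⟩ := part1 ⟨hl.isCard, hl.om_lt.le⟩ hκ hν h0 h1
        obtain ⟨τ, h3, _, h4⟩ := P1 l κ ν ⟨hl.isCard, hl.om_lt.le⟩ hκ hν h0 h1 _ h2 IsReg.omega
        exact absurd h4 (h τ h3)
  · intro l ρ hl hρ hρl
    constructor
    · intro h κ hκ
      exact absurd hκ (h κ)
    · intro h κ hκ
      obtain ⟨ν, _, hν⟩ := exists_isCof hκ.1.2.1
      have h0 : ν ≠ Ordinal.omega0 := fun h2 => (h κ hκ).1 (h2 ▸ hν)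
      have h1 : ¬ IsCof ν l := fun h2 => (h κ hκ).2 (h2.unique hρ ▸ hν)
      obtain ⟨h2, _⟩ := part1 hl hκ hν h0 h1
      obtain ⟨τ, h3, _, h4⟩ := P1 l κ ν hl hκ hν h0 h1 _ h2 IsReg.omega
      exact absurd h4 (h τ h3).1
  · intro l κ ν hl hκ hlκ hmin hν
    by_cases h0 : ν = Ordinal.omega0
    · exact Or.inl h0
    by_cases h1 : IsCof ν l
    · exact Or.inr (Or.inl h1)
    obtain ⟨h2, _⟩ := part1 hl hκ hν h0 h1
    have h3 : ∀ γ < ν, IsReg γ → HODReg l ∧ IsCof γ l := by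
      intro γ hγ hγr
      obtain ⟨τ, h3, h4, h5⟩ := P1 l κ ν hl hκ hν h0 h1 γ hγ hγr
      have h6 : l = τ := by
        rcases h3.2.1.lt_or_eq with h | h
        · exact absurd h3.1 (hmin τ h h4)
        · exact h
      rw [h6]
      exact ⟨h3.1, h5⟩
    obtain ⟨h4, h5⟩ := h3 _ h2 IsReg.omega
    exact Or.inr (Or.inr ⟨h4, h5, fun γ hγ hγr => (h3 γ hγ hγr).2.unique h5⟩)
  · intro θ hθ
    have hcov : (∀ κ ≥ θ, HODReg κ → ¬ IsCof Ordinal.omega0 κ) → CovOm θ := by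
      intro h x hx
      obtain ⟨τ, _, h1, G, h2, h3, h4, h5, _⟩ := hod_cof hx.lim.1 hx.lim.2
      refine ⟨τ, ?_, _, h2, (cofi_og h3).2 h5⟩
      by_contra hcon
      push Not at hcon
      exact h τ hcon h1 ((isCof_iff h3 h4 h5 _).1 (cofOm_iff.1 hx))
    have hbig : (∀ κ ≥ θ, HODReg κ → ¬ IsCof Ordinal.omega0 κ) →
        ∀ κ ≥ θ, HODReg κ → ∀ ν : Ordinal.{u}, CofN ν.toZFSet κ.toZFSet → κ.card ≤ ν.card :=
      fun h κ hκ hr ν hν => big_cof hθ (hcov h) hκ hr hν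
    refine ⟨⟨fun h κ hκ hr hω => ?_, fun h κ hκ hr ν hν => ?_⟩, fun h => ?_⟩
    · have h1 := h κ hκ hr _ hω
      have h2 := IsCard.card_lt hθ.isCard hθ.om_lt
      exact absurd (Ordinal.card_le_card hκ) (not_le.2 (h1 ▸ h2))
    · refine le_antisymm (Ordinal.card_le_card ?_) (hbig h κ hκ hr ν hν.1)
      obtain ⟨ν', h1, h2⟩ := exists_isCof hr.2.1
      rw [hν.unique h2]
      exact h1
    · have hA : AltA θ := by
        intro γ hγ hs l hl α hγα hαl hα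
        exact no_reg hs hγα hl hαl hα (hbig h α (hγ.le.trans hγα) hα)
      refine ⟨hA, fun β => ?_⟩
      obtain ⟨γ, hγ, hs, _⟩ := exists_isSing (max θ β)
      obtain ⟨l, hl, hr, hsucc⟩ := exists_succ hs.1 (by
        have := hs.2.1
        unfold om at this
        exact tzm.1 this)
      refine ⟨l, ((le_max_right _ _).trans_lt hγ).trans hl, notStrMeas_of_sing b hr
        ((statL_om hr hl).mono fun α hα h1 => ⟨h1.2, ?_⟩)⟩
      by_contra hcon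
      exact hA γ ((le_max_left _ _).trans_lt hγ) hs l hsucc α h1.1.le hα
        ⟨h1.2.lim.1, h1.2.lim.2, hcon⟩

end Pool.Agent.Results.MP_dbe07f_lc.CofinalitySpectrum
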