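import Pool.Agent.H639.Hp6

/-!
# The HOD Hypothesis and closure of `HOD_p` under sequences

For a set `p` let `HOD_p` be the class of the sets which are hereditarily definable from ordinals and
`p`.

1. (ZFC) For every ordinal `k` the following are equivalent:
   * for some `μ` the values of every `k`-sequence of ordinals are in a set in HOD with at most `|μ|`
     elements;
   * for all sufficiently large `ρ` and all enumerations `p` of `V_ρ` the class `HOD_p` (which contains
     `V_ρ`) is closed under `k`-sequences;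
   * for every `α` there is a set `p` such that `V_α ⊆ HOD_p` and `HOD_p` is closed under
     `k`-sequences;
   * for some set `p` the class `HOD_p` is closed under `k`-sequences;
   * for some set `p` and some `μ` the values of every `k`-sequence of ordinals are in a set in `HOD_p`
     with at most `|μ|` elements.
2. (ZFC) Suppose that for some set `p` and some ordinal `t` every ordinal of cofinality `ω` has a
   cofinal function in `HOD_p` from an ordinal below `t` (this holds if `HOD_p` is closed under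
   countable sequences). Then the HOD Hypothesis holds. Moreover then, for all sufficiently large
   regular `θ`: every ordinal of cofinality `ω` has cofinality less than `θ` in HOD; every `κ ≥ θ`
   which is regular in HOD has cofinality `|κ|`; HOD computes correctly the successors of all singular
   cardinals above `θ`; for all regular `l > θ` and `0 < k ≤ l` there is in HOD a partition of
   `cof(ω) ∩ l` into `k` stationary sets, and `l` is not `ω`-strongly measurable in HOD.
3. (Converse.) Suppose that for all sufficiently large regular `l` every family of fewer than `μ`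
   stationary subsets of `cof(ω) ∩ l` reflects simultaneously at an ordinal of cofinality less than
   `θ`, where `μ > ω` and `θ` is regular. Then the HOD Hypothesis is equivalent to each of: its version
   for `HOD_p` for all sets `p`, or for some set `p`; for some `p` and `t` the hypothesis of 2 holds; for some set `p`, `HOD_p` is closed under countable
   sequences; for all `ρ ≥ θ` and all enumerations `p` of `V_ρ`, `HOD_p` is closed under sequences of
   length less than `μ`.
4. If `δ` is extendible, then 3 holds with `μ = θ = δ`, and moreover the HOD Hypothesis is equivalent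
   to the statements in 1 for all `k`.
-/

set_option autoImplicit false

namespace Pool.Agent.Results.MP_dbe07f_lc.ClosedUnderSequences

open Pool.Agent.H310.HD Pool.Agent.H639 Gss969 ZFSet
open Pool.Agent.Results.MP_e37c09_lc.AlternativeA

universe u

/-- Every `κ ≥ θ` which is regular in HOD has cofinality at least `|κ|`. -/
def CofAll (θ : Ordinal.{u}) : Prop :=
  ∀ κ ≥ θ, HODReg κ → ∀ ν : Ordinal.{u}, CofN ν.toZFSet κ.toZFSet → κ.card ≤ ν.card

theorem cofBdd_of_closed {p : ZFSet.{u}} (h : ClosedSeq (HODp p) Ordinal.omega0) :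
    CofBdd (HODp p) (Order.succ Ordinal.omega0) := by
  rintro x ⟨f, hf, hfc⟩
  refine ⟨Ordinal.omega0, Order.lt_succ _, f, h _ _ hf fun a y hay => ?_, hf, hfc⟩
  obtain ⟨y, _, rfl⟩ := Ordinal.mem_toZFSet_iff.1 (pair_mem_prod.1 (hf.1 hay)).2
  exact (HOD_ord _).hodp p

theorem zfc (b : Bool) {p : ZFSet.{u}} {t : Ordinal.{u}} (h : CofBdd (HODp p) t) :
    HODHypothesis.{u} b ∧ ∃ μ : Ordinal.{u}, ∀ θ > μ, RegUnc (Ordinal.toZFSet θ) →
      CofBdd HOD θ ∧ CofAll θ ∧ AltA θ ∧ Partitions θ ∧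
        ∀ l > θ, RegUnc (Ordinal.toZFSet l) → NotStrMeas b l := by
  obtain ⟨μ, h'⟩ := covOm_of_cofBdd h
  constructor
  · obtain ⟨θ, hθ, hr⟩ := exists_regUnc μ
    exact hodHyp_of_altA b (altA_of_covOm hr (h' θ hθ hr))
  · refine ⟨μ, fun θ hθ hr => ?_⟩
    have h1 := h' θ hθ hr
    have h2 := partitions_of_covOm h1
    exact ⟨h1, fun κ hκ hκr ν hν => big_cof hr h1 hκ hκr hν, altA_of_covOm hr h1, h2,
      notStrMeas_of_partitions b h2⟩

open Pool.Agent.Results.MP_dbe07f_lc.SetParameters in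
theorem reflection (b : Bool) {μ θ : Ordinal.{u}} (hμ : Ordinal.omega0 < μ)
    (hθ : RegUnc θ.toZFSet)
    (hR : ∃ l₀ : Ordinal.{u}, ∀ l > l₀, RegUnc (Ordinal.toZFSet l) → Refl μ θ l) :
    List.TFAE [HODHypothesis.{u} b,
      ∀ p : ZFSet.{u}, Hypothesis b (HODp p),
      ∃ p : ZFSet.{u}, Hypothesis b (HODp p),
      ∃ p : ZFSet.{u}, ∃ t : Ordinal.{u}, CofBdd (HODp p) t,
      ∃ p : ZFSet.{u}, ClosedSeq (HODp p) Ordinal.omega0,
      ∀ k < μ, ∀ ρ ≥ θ, AllClosed k ρ] := by
  have hfam : HODHypothesis.{u} b → CovSets μ θ := fun h => covSets_of_fam hR fun k₀ => by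
    obtain ⟨k, hk, l, _, hl, S, hS, hF⟩ := fam_of_nonSM (b := b) (P := HOD) (fun β => by
      obtain ⟨l, h1, h2⟩ := h β
      exact ⟨l, h1, (notStrMeas_iff b l).1 h2⟩) k₀
    exact ⟨k, hk, l, hl, S, hS, hF⟩
  tfae_have 1 → 2 := fun h => hypothesis_of_partitions b
    (partitions_of_covOm ((hfam h).covOm hμ hθ.isCard))
  tfae_have 2 → 3 := fun h => ⟨∅, h ∅⟩
  tfae_have 3 → 6 := fun ⟨p, h⟩ => allClosed_of_covSets hθ (covSets_of_hypothesis b hR h)
  tfae_have 6 → 5 := by
    intro h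
    obtain ⟨p, hp⟩ := exists_enumOf' (V_ θ)
    exact ⟨p, (h _ hμ θ le_rfl p hp).2⟩
  tfae_have 5 → 4 := fun ⟨p, hp⟩ => ⟨p, _, cofBdd_of_closed hp⟩
  tfae_have 4 → 1 := fun ⟨p, t, h⟩ => (zfc b h).1
  tfae_finish

open Pool.Agent.Results.MP_dbe07f_lc.SetParameters in
theorem result (b : Bool) :
    (∀ k : Ordinal.{u}, List.TFAE [∃ μ : Ordinal.{u}, CovSeq HOD k μ,
      ∃ ρ₀ : Ordinal.{u}, ∀ ρ ≥ ρ₀, AllClosed k ρ,
      ∀ α : Ordinal.{u}, ∃ p, (∀ x ∈ V_ α, HODp p x) ∧ ClosedSeq (HODp p) k,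
      ∃ p : ZFSet.{u}, ClosedSeq (HODp p) k,
      ∃ p : ZFSet.{u}, ∃ μ : Ordinal.{u}, CovSeq (HODp p) k μ]) ∧
    (∀ p : ZFSet.{u}, (ClosedSeq (HODp p) Ordinal.omega0 →
        CofBdd (HODp p) (Order.succ Ordinal.omega0)) ∧
      ∀ t : Ordinal.{u}, CofBdd (HODp p) t → HODHypothesis.{u} b ∧
        ∃ μ : Ordinal.{u}, ∀ θ > μ, RegUnc (Ordinal.toZFSet θ) →
          CofBdd HOD θ ∧ CofAll θ ∧ AltA θ ∧ Partitions θ ∧
            ∀ l > θ, RegUnc (Ordinal.toZFSet l) → NotStrMeas b l) ∧
    (∀ μ θ : Ordinal.{u}, Ordinal.omega0 < μ → RegUnc θ.toZFSet →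
      (∃ l₀ : Ordinal.{u}, ∀ l > l₀, RegUnc (Ordinal.toZFSet l) → Refl μ θ l) →
      List.TFAE [HODHypothesis.{u} b,
        ∀ p : ZFSet.{u}, Hypothesis b (HODp p),
        ∃ p : ZFSet.{u}, Hypothesis b (HODp p),
        ∃ p : ZFSet.{u}, ∃ t : Ordinal.{u}, CofBdd (HODp p) t,
        ∃ p : ZFSet.{u}, ClosedSeq (HODp p) Ordinal.omega0,
        ∀ k < μ, ∀ ρ ≥ θ, AllClosed k ρ]) ∧
    ∀ δ : Ordinal.{u}, Extendible δ →
      List.TFAE [HODHypothesis.{u} b,
        ∀ p : ZFSet.{u}, Hypothesis b (HODp p),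
        ∃ p : ZFSet.{u}, Hypothesis b (HODp p),
        ∃ p : ZFSet.{u}, ∃ t : Ordinal.{u}, CofBdd (HODp p) t,
        ∃ p : ZFSet.{u}, ClosedSeq (HODp p) Ordinal.omega0,
        ∀ k < δ, ∀ ρ ≥ δ, AllClosed k ρ,
        ∀ k : Ordinal.{u}, ∃ ρ₀ : Ordinal.{u}, ∀ ρ ≥ ρ₀, AllClosed k ρ] := by
  refine ⟨closedSeq_tfae, fun p => ⟨cofBdd_of_closed, fun t h => zfc b h⟩, fun μ θ hμ hθ hR =>
    reflection b hμ hθ hR, fun δ hδ => ?_⟩
  have h1 := reflection b hδ.om_lt hδ.regUnc ⟨δ, fun l hl hr => refl_of_extendible hδ hr hl⟩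
  tfae_have 1 ↔ 2 := h1.out 0 1
  tfae_have 1 ↔ 3 := h1.out 0 2
  tfae_have 1 ↔ 4 := h1.out 0 3
  tfae_have 1 ↔ 5 := h1.out 0 4
  tfae_have 1 ↔ 6 := h1.out 0 5
  tfae_have 1 → 7 := by
    intro h k
    have hres := Pool.Agent.Results.MP_e37c09_lc.AlternativeA.result b δ hδ
    have hFam : Families δ := (hres.out 9 5).1 h
    have hc : ∃ μ : Ordinal.{u}, CovSeq HOD k μ := by
      refine ⟨max δ k, fun s => ?_⟩
      obtain ⟨γ, _, hγ⟩ := exists_seq_bound (max δ k) s
      obtain ⟨B, h2, _, h3, h4⟩ := cover_all hδ hFam (max δ k) (le_max_left _ _) γ s hγ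
      exact ⟨B, h2, fun i hi => h3 i (hi.trans_le (le_max_right _ _)), h4⟩
    exact ((closedSeq_tfae k).out 0 1).1 hc
  tfae_have 7 → 5 := by
    intro h
    exact ((closedSeq_tfae Ordinal.omega0.{u}).out 1 3).1 (h _)
  tfae_finish

end Pool.Agent.Results.MP_dbe07f_lc.ClosedUnderSequences
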