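import Pool.Agent.H639.Jen5

/-!
# Jensen's covering property and the HOD Hypothesis

Let `δ` be an extendible cardinal. The HOD Hypothesis is equivalent to the following strong covering
property: every set of ordinals of size `μ ≥ δ` is contained in a set in HOD of size `μ`, and every
set of ordinals of size less than `δ` is contained in a set in HOD of size less than `δ`; and the
covers can be chosen closed under any given function. It is also equivalent to a very weak form of
covering: for one regular `l ≥ δ` and one `μ` with `μ⁺ < l` all countable subsets of `l` are contained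
in sets in HOD of size at most `μ`.
-/

set_option autoImplicit false

namespace Pool.Agent.Results.MP_dbe07f_lc.JensenCovering

open Pool.Agent.H310.HD Pool.Agent.H639 Gss969 ZFSet
open Pool.Agent.Results.MP_e37c09_lc.AlternativeA

universe u

/-- Strong covering. Every set `{f(i) : i < μ}` of ordinals below `γ` has a superset `B ⊆ γ` in HOD
which is closed under the given function `F : γ × γ → γ`; the size of `B` is at most `μ` if `μ ≥ δ`,
and less than `δ` if `μ < δ`. -/
def StrongCovering (δ : Ordinal.{u}) : Prop :=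
  ∀ (μ γ : Ordinal.{u}) (f : Ordinal.{u} → Ordinal.{u}) (F : Ordinal.{u} → Ordinal.{u} → Ordinal.{u}),
    (∀ i < μ, f i < γ) → (∀ y < γ, ∀ z < γ, F y z < γ) →
    ∃ B, HOD B ∧ B ⊆ γ.toZFSet ∧ (∀ i < μ, (f i).toZFSet ∈ B) ∧
      (∃ c < δ, Few (max μ c) B) ∧
      ∀ y z : Ordinal.{u}, y.toZFSet ∈ B → z.toZFSet ∈ B → (F y z).toZFSet ∈ B

/-- Weak covering. For one regular `l ≥ δ` and one `μ` such that there is a cardinal strictly between
`μ` and `l`, all countable subsets of `l` are contained in sets in HOD of size at most `μ`. -/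
def WeakCovering (δ : Ordinal.{u}) : Prop :=
  ∃ l ≥ δ, RegUnc (Ordinal.toZFSet l) ∧ ∃ μ : Ordinal.{u}, (∃ κ < l, μ.card < κ.card) ∧
    ∀ f : ℕ → Ordinal.{u}, (∀ n, f n < l) → ∃ B, HOD B ∧ (∀ n, (f n).toZFSet ∈ B) ∧ Few μ B

theorem result (b : Bool) (δ : Ordinal.{u}) (hδ : Extendible δ) :
    List.TFAE [HODHypothesis.{u} b, AltA δ, StrongCovering δ, WeakCovering δ] := by
  classical
  have hres := Pool.Agent.Results.MP_e37c09_lc.AlternativeA.result b δ hδ
  tfae_have 1 ↔ 2 := hres.out 9 0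
  tfae_have 2 → 3 := by
    intro h μ γ f F hf hF
    have hFam : Families δ := (hres.out 0 5).1 h
    rcases lt_or_ge μ δ with h1 | h1
    · obtain ⟨T, h2, h3, h4, ⟨c, hc, h5⟩, h6⟩ := cover_closed hδ hFam h1 f hf F hF
      exact ⟨T, h2, h3, h4, ⟨c, hc, Few.mono h5 (le_max_right _ _)⟩, h6⟩
    · obtain ⟨T, h2, h3, h4, h5, h6⟩ := cover_jensen hδ hFam h1 γ f hf F hF
      exact ⟨T, h2, h3, h4, ⟨0, lt_of_le_of_lt bot_le hδ.om_lt, h5.mono (le_max_left _ _)⟩, h6⟩
  tfae_have 3 → 4 := by
    intro h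
    have hδc := hδ.regUnc.isCard
    obtain ⟨l₁, hl₁, hr₁, _⟩ := exists_succ hδc hδ.om_lt
    obtain ⟨l₂, hl₂, hr₂, _⟩ := exists_succ hr₁.isCard (hδ.om_lt.trans hl₁)
    refine ⟨l₂, (hl₁.trans hl₂).le, hr₂, δ, ⟨l₁, hl₂, hr₁.isCard.card_lt hl₁⟩, fun f hf => ?_⟩
    have hl0 : 0 < l₂ := lt_of_le_of_lt bot_le hl₂
    obtain ⟨B, h1, _, h2, ⟨c, hc, h3⟩, _⟩ := h δ l₂
      (fun i => if hi : ∃ n : ℕ, i = n then f hi.choose else 0) (fun y _ => y) (fun i _ => by
        split_ifs with hi
        · exact hf _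
        · exact hl0) fun y hy _ _ => hy
    refine ⟨B, h1, fun n => ?_, ?_⟩
    · have h4 := h2 n ((Ordinal.natCast_lt_omega0 n).trans hδ.om_lt)
      have h5 : ∃ m : ℕ, (n : Ordinal.{u}) = m := ⟨n, rfl⟩
      simp only [dif_pos h5] at h4
      have h6 : h5.choose = n := by exact_mod_cast h5.choose_spec.symm
      rwa [h6] at h4
    · rwa [max_eq_left hc.le] at h3
  tfae_have 4 → 2 := by
    rintro ⟨l, hl, hr, μ, ⟨κ, hκ, hμκ⟩, h⟩
    have h4 : ∃ l ≥ δ, ManySing l := by
      refine ⟨l, hl, hr, (statL_om hr hκ).mono fun α hα hκα => ⟨hκα.2, ?_⟩⟩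
      exact sing_of_cover hκα.2 (hμκ.trans_le (Ordinal.card_le_card hκα.1.le))
        fun f hf => h f fun n => (hf n).trans hα
    exact (hres.out 3 0).1 h4
  tfae_finish

end Pool.Agent.Results.MP_dbe07f_lc.JensenCovering
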